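import Pool.Agent.J4H59.PH.Jobs
import Mathlib.LinearAlgebra.FreeModule.PID
import Mathlib.RingTheory.Localization.Integral

/-!
# Finite families of Laurent series over the integral polynomials
-/

set_option autoImplicit false

open scoped Classical

namespace Pool.Agent.J4H28.PH

open Pool.Agent.J4H59.PH

noncomputable section

/-- rational polynomials as Laurent series -/
def Q2L : Polynomial ℚ →+* LaurentSeries ℚ :=
  (HahnSeries.ofPowerSeries ℤ ℚ).comp (Polynomial.coeToPowerSeries.ringHom)

theorem Q2L_inj : Function.Injective Q2L := by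
  intro p q h
  have h1 : (HahnSeries.ofPowerSeries ℤ ℚ) (p : PowerSeries ℚ) =
    (HahnSeries.ofPowerSeries ℤ ℚ) (q : PowerSeries ℚ) := h
  exact Polynomial.coe_injective ℚ (HahnSeries.ofPowerSeries_injective h1)

theorem P2L_eq (p : Polynomial ℤ) : P2L p = Q2L (p.map (Int.castRingHom ℚ)) := rfl

theorem exists_int (p : Polynomial ℚ) : ∃ (d : ℕ) (q : Polynomial ℤ), d ≠ 0 ∧
    q.map (Int.castRingHom ℚ) = (d : Polynomial ℚ) * p := by
  induction p using Polynomial.induction_on' with
  | add p q hp hq =>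
    obtain ⟨d, p', hd, hp'⟩ := hp
    obtain ⟨e, q', he, hq'⟩ := hq
    refine ⟨d * e, (e : Polynomial ℤ) * p' + (d : Polynomial ℤ) * q', Nat.mul_ne_zero hd he, ?_⟩
    rw [Polynomial.map_add, Polynomial.map_mul, Polynomial.map_mul, hp', hq',
      Polynomial.map_natCast, Polynomial.map_natCast]
    push_cast
    ring
  | monomial n a =>
    refine ⟨a.den, Polynomial.monomial n a.num, a.den_ne_zero, ?_⟩
    rw [Polynomial.map_monomial]
    have h1 : (a.den : Polynomial ℚ) = Polynomial.C (a.den : ℚ) := by simp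
    rw [h1, Polynomial.C_mul_monomial]
    congr 1
    rw [mul_comm, Rat.mul_den_eq_num]
    rfl

theorem t_LAU : S_LAU := by
  intro ι hι κ
  have := Fintype.ofFinite ι
  letI : Module (Polynomial ℚ) (LaurentSeries ℚ) := Module.compHom (LaurentSeries ℚ) Q2L
  have hsm : ∀ (p : Polynomial ℚ) (x : LaurentSeries ℚ), p • x = Q2L p * x := fun _ _ => rfl
  let S : Submodule (Polynomial ℚ) (LaurentSeries ℚ) := Submodule.span _ (Set.range κ)
  have hfin : Module.Finite (Polynomial ℚ) S :=
    Module.Finite.iff_fg.2 (Submodule.fg_span (Set.finite_range κ))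
  have htf : Module.IsTorsionFree (Polynomial ℚ) (LaurentSeries ℚ) := by
    refine ⟨fun p hp x y hxy => ?_⟩
    have hxy : Q2L p * x = Q2L p * y := hxy
    have h1 : Q2L p ≠ 0 := by
      intro h0
      rw [← map_zero Q2L] at h0
      have h2 := Q2L_inj h0
      exact hp.ne_zero h2
    exact mul_left_cancel₀ h1 hxy
  have hfree : Module.Free (Polynomial ℚ) S := inferInstance
  let b := Module.finBasis (Polynomial ℚ) S
  let κ' : ι → S := fun j => ⟨κ j, Submodule.subset_span ⟨j, rfl⟩⟩
  choose d q hd hq using fun (x : Fin (Module.finrank (Polynomial ℚ) S) × ι) =>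
    exists_int (b.repr (κ' x.2) x.1)
  let D : ℕ := ∏ x, d x
  have hD : D ≠ 0 := Finset.prod_ne_zero_iff.2 fun x _ => hd x
  have hdvd : ∀ x, ∃ e : ℕ, D = e * d x := fun x => by
    obtain ⟨e, he⟩ := Finset.dvd_prod_of_mem d (Finset.mem_univ x)
    exact ⟨e, by rw [mul_comm]; exact he⟩
  choose e he using hdvd
  have hDL : (D : LaurentSeries ℚ) ≠ 0 := by
    intro h0
    rw [← map_natCast Q2L D, ← map_zero Q2L] at h0
    exact hD (Nat.cast_eq_zero.1 (Q2L_inj h0))
  refine ⟨_, fun l => (D : LaurentSeries ℚ)⁻¹ * (b l : LaurentSeries ℚ),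
    fun l j => (e (l, j) : Polynomial ℤ) * q (l, j), ?_, ?_⟩
  · intro j
    have h1 : (κ j) = ∑ l, Q2L (b.repr (κ' j) l) * (b l : LaurentSeries ℚ) := by
      have h2 := congrArg (fun x : S => (x : LaurentSeries ℚ)) (b.sum_repr (κ' j))
      simp only [Submodule.coe_sum, Submodule.coe_smul] at h2
      exact h2.symm
    rw [h1]
    refine Finset.sum_congr rfl fun l _ => ?_
    have h3 : P2L ((e (l, j) : Polynomial ℤ) * q (l, j)) =
        (D : LaurentSeries ℚ) * Q2L (b.repr (κ' j) l) := by
      rw [P2L_eq, Polynomial.map_mul, hq, Polynomial.map_natCast, ← mul_assoc, ← Nat.cast_mul,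
        ← he, map_mul, map_natCast]
    rw [h3]
    field_simp
  · intro c hc l
    have h1 : ∑ l, Q2L ((c l).map (Int.castRingHom ℚ)) * (b l : LaurentSeries ℚ) = 0 := by
      have h2 : ∑ l, P2L (c l) * ((D : LaurentSeries ℚ)⁻¹ * (b l : LaurentSeries ℚ)) =
          (D : LaurentSeries ℚ)⁻¹ *
            ∑ l, Q2L ((c l).map (Int.castRingHom ℚ)) * (b l : LaurentSeries ℚ) := by
        rw [Finset.mul_sum]
        exact Finset.sum_congr rfl fun l _ => by rw [P2L_eq]; ring
      rw [h2] at hc
      exact (mul_eq_zero.1 hc).resolve_left (inv_ne_zero hDL)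
    have h2 : ∑ l, (c l).map (Int.castRingHom ℚ) • b l = 0 := by
      apply Subtype.ext
      simp only [Submodule.coe_sum, Submodule.coe_smul]
      exact h1
    have h3 := Fintype.linearIndependent_iff.1 b.linearIndependent _ h2 l
    exact (Polynomial.map_eq_zero_iff (RingHom.injective_int _)).1 h3

end

end Pool.Agent.J4H28.PH
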