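import Pool.Agent.J4H28.PH.RayA
import Pool.Agent.J4H28.PH.Lau

/-!
# Functions with support in finitely many rays: derivations are inner
-/

set_option autoImplicit false
set_option linter.unusedSectionVars false

open scoped Classical Matrix

namespace Pool.Agent.J4H28.PH

open Pool.Agent.Helper386.PD3 Pool.Agent.J4H59.PD Pool.Agent.J4H59.PE Pool.Agent.J4H59.PH

noncomputable section

variable {G : Type} [Group G]

theorem P2L_coeff (p : Polynomial ℤ) (m : ℤ) :
    (P2L p).coeff m = if m < 0 then 0 else ((p.coeff m.natAbs : ℤ) : ℚ) := by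
  have h1 : (P2L p).coeff m = if m < 0 then 0 else
      PowerSeries.coeff m.natAbs ((p.map (Int.castRingHom ℚ) : Polynomial ℚ) : PowerSeries ℚ) :=
    PowerSeries.coeff_coe _ m
  rw [h1, Polynomial.coeff_coe, Polynomial.coeff_map]
  rfl

theorem col_lin {n : ℕ} {M M' : Type} [AddCommGroup M] [Module (RR G) M] [AddCommGroup M']
    [Module (RR G) M'] (T : M →ₗ[RR G] M') (D : MR G n) (ψ : Fin n → M) (i : Fin n) :
    T (col D ψ i) = col D (fun j => T (ψ j)) i := by
  change T (∑ j, D i j • ψ j) = ∑ j, D i j • T (ψ j)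
  rw [map_sum]
  exact Finset.sum_congr rfl fun j _ => map_smul T _ _

theorem col_sum {n k : ℕ} {M : Type} [AddCommGroup M] [Module (RR G) M]
    (D : MR G n) (ψ : Fin k → Fin n → M) (i : Fin n) :
    col D (fun j => ∑ l, ψ l j) i = ∑ l, col D (ψ l) i := by
  change ∑ j, D i j • ∑ l, ψ l j = ∑ l, ∑ j, D i j • ψ l j
  rw [Finset.sum_comm]
  exact Finset.sum_congr rfl fun j _ => Finset.smul_sum

variable {N : Subgroup G} {t : G} (hn : t ∈ Subgroup.normalizer (N : Set G))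
  (ht : ∀ k : ℤ, k ≠ 0 → t ^ k ∉ N)

/-- the inclusion of the functions with finite support -/
abbrev inc : (famF N).sub →ₗ[RR G] MQ hn ht := incQ (famF N) _ (famP_of_finite hn ht)

/-- evaluation -/
def evQ (x : G ⧸ N) : MQ hn ht →+ ℚ where
  toFun f := (f : FQ N) x
  map_zero' := rfl
  map_add' _ _ := rfl

include ht in
theorem mv_inj (x : G ⧸ N) {m m' : ℤ} (h : mv hn m x = mv hn m' x) : m = m' := by
  have h1 := L_mv hn ht m x
  rw [h, L_mv] at h1
  linarith

include ht in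
theorem fin_mv (f : (famF N).sub) (x : G ⧸ N) : {m : ℤ | (f : Fn N) (mv hn m x) ≠ 0}.Finite :=
  Set.Finite.preimage (s := supp (f : Fn N)) (f := fun m : ℤ => mv hn m x)
    (fun _ _ _ _ h => mv_inj hn ht x h) f.2

theorem exists_poly (f : (famF N).sub) (x : G ⧸ N)
    (h : ∀ m : ℤ, m < 0 → (f : Fn N) (mv hn m x) = 0) :
    ∃ p : Polynomial ℤ, ee hn ht (inc hn ht f) x = P2L p ∧
      ∀ j : ℕ, p.coeff j = (f : Fn N) (mv hn j x) := by
  have hfin : {j : ℕ | (f : Fn N) (mv hn j x) ≠ 0}.Finite :=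
    Set.Finite.preimage (s := {m : ℤ | (f : Fn N) (mv hn m x) ≠ 0}) (f := fun j : ℕ => (j : ℤ))
      (fun _ _ _ _ h => Int.ofNat_inj.1 h) (fin_mv hn ht f x)
  have hc : ∀ j : ℕ, (∑ i ∈ hfin.toFinset, Polynomial.monomial i
      ((f : Fn N) (mv hn i x) : ℤ)).coeff j = (f : Fn N) (mv hn j x) := by
    intro j
    rw [Polynomial.finset_sum_coeff]
    simp only [Polynomial.coeff_monomial]
    rw [Finset.sum_ite_eq']
    split_ifs with h1
    · rfl
    · rw [Set.Finite.mem_toFinset] at h1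
      by_contra hcon
      exact h1 (Ne.symm hcon)
  refine ⟨_, ?_, hc⟩
  ext m
  rw [P2L_coeff, ee_coeff, incQ_apply]
  split_ifs with h1
  · rw [h m h1, Int.cast_zero]
  · rw [hc, Int.natAbs_of_nonneg (not_lt.1 h1)]

theorem indep {k : ℕ} (y : Fin k → LaurentSeries ℚ)
    (hy : ∀ c : Fin k → Polynomial ℤ, ∑ l, P2L (c l) * y l = 0 → ∀ l, c l = 0)
    (ψ : Fin k → (famF N).sub) (h : ∑ l, st hn ht (y l) (inc hn ht (ψ l)) = 0) (l : Fin k) :
    ψ l = 0 := by
  apply Subtype.ext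
  refine fn_ext fun x => ?_
  -- a lower bound
  have hb : ∀ l, ∃ B : ℤ, ∀ m : ℤ, m < B → (ψ l : Fn N) (mv hn m x) = 0 := by
    intro l
    obtain ⟨B, hB⟩ := (fin_mv hn ht (ψ l) x).bddBelow
    refine ⟨B, fun m hm => ?_⟩
    by_contra hcon
    exact absurd (hB hcon) (not_le.2 hm)
  choose B hB using hb
  obtain ⟨M, hM⟩ : ∃ M : ℤ, (∀ l, M ≤ B l) ∧ M ≤ 0 := by
    obtain ⟨M, hM⟩ := (Set.finite_range B).bddBelow
    exact ⟨min M 0, fun l => (min_le_left _ _).trans (hM ⟨l, rfl⟩), min_le_right _ _⟩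
  have h0 : ∀ l, ∀ m : ℤ, m < 0 → (ψ l : Fn N) (mv hn m (mv hn M x)) = 0 := by
    intro l m hm
    rw [mv_mv]
    apply hB
    have := hM.1 l
    omega
  choose p hp hp' using fun l => exists_poly hn ht (ψ l) (mv hn M x) (h0 l)
  have h2 : ∑ l, P2L (p l) * y l = 0 := by
    ext m
    rw [HahnSeries.coeff_sum]
    have h3 := congrArg (evQ hn ht (mv hn m (mv hn M x))) h
    rw [map_sum, map_zero] at h3
    refine Eq.trans (Finset.sum_congr rfl fun l _ => ?_) h3
    change _ = (st hn ht (y l) (inc hn ht (ψ l)) : FQ N) (mv hn m (mv hn M x))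
    rw [st_apply, hp, mul_comm]
  have h3 := hy p h2 l
  have h4 := hp' l (-M).natAbs
  rw [h3, Polynomial.coeff_zero, mv_mv, Int.natAbs_of_nonneg (by linarith [hM.2]),
    neg_add_cancel, mv_zero] at h4
  exact h4.symm

theorem exists_decomp {n : ℕ} (φ : Fin n → MQ hn ht) :
    ∃ (k : ℕ) (y : Fin k → LaurentSeries ℚ) (φ' : Fin k → Fin n → (famF N).sub),
      (∀ c : Fin k → Polynomial ℤ, ∑ l, P2L (c l) * y l = 0 → ∀ l, c l = 0) ∧
      ∀ i, φ i = ∑ l, st hn ht (y l) (inc hn ht (φ' l i)) := by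
  let v := mkLv hn (le_refl N) ht
  let C : Set (G ⧸ (N ⊔ Subgroup.zpowers t)) := ⋃ i, v.π '' suppQ (φ i : FQ N)
  have hC : C.Finite := Set.finite_iUnion fun i => (φ i).2.1.1
  have hCf : Finite C := hC
  choose b hb using exists_base (N := N) (t := t) hn ht
  obtain ⟨k, y, a, ha, hy⟩ := t_LAU (C × Fin n) (fun ci => ee hn ht (φ ci.2) (b ci.1))
  let a' : Fin k → (G ⧸ (N ⊔ Subgroup.zpowers t)) → Fin n → Polynomial ℤ := fun l c i =>
    if h : c ∈ C then a l (⟨c, h⟩, i) else 0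
  have ha' : ∀ c i, ee hn ht (φ i) (b c) = ∑ l, P2L (a' l c i) * y l := by
    intro c i
    by_cases h : c ∈ C
    · have h1 := ha (⟨c, h⟩, i)
      refine h1.trans (Finset.sum_congr rfl fun l _ => ?_)
      have h2 : a' l c i = a l (⟨c, h⟩, i) := dif_pos h
      rw [h2]
    · have h1 : ∑ l, P2L (a' l c i) * y l = 0 := by
        refine Finset.sum_eq_zero fun l _ => ?_
        have h2 : a' l c i = 0 := dif_neg h
        rw [h2, map_zero, zero_mul]
      rw [h1]
      apply ee_zero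
      intro m
      by_contra hcon
      apply h
      refine Set.mem_iUnion.2 ⟨i, mv hn m (b c), hcon, ?_⟩
      rw [pi_mv, hb]
  let f : Fin k → Fin n → Fn N := fun l i x => if v.L x - v.L (b (v.π x)) < 0 then 0 else
    (a' l (v.π x) i).coeff (v.L x - v.L (b (v.π x))).natAbs
  have hfx : ∀ l i c (m : ℤ), f l i (mv hn m (b c)) = if m < 0 then 0 else
      (a' l c i).coeff m.natAbs := by
    intro l i c m
    have h1 : v.π (mv hn m (b c)) = c := by rw [pi_mv, hb]
    have h2 : v.L (mv hn m (b c)) - v.L (b (v.π (mv hn m (b c)))) = m := by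
      rw [h1, L_mv]
      ring
    change (if v.L (mv hn m (b c)) - v.L (b (v.π (mv hn m (b c)))) < 0 then 0 else
      (a' l (v.π (mv hn m (b c))) i).coeff
        (v.L (mv hn m (b c)) - v.L (b (v.π (mv hn m (b c))))).natAbs) = _
    rw [h2, h1]
  have hff : ∀ l i, f l i ∈ (famF N).sub := by
    intro l i
    change (supp (f l i)).Finite
    refine (hC.biUnion (t := fun c => (fun j : ℕ => mv hn (j : ℤ) (b c)) ''
      ((a' l c i).support : Set ℕ)) fun c _ => ((Finset.finite_toSet _).image _)).subset ?_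
    intro x hx
    have hx1 : x = mv hn (v.L x - v.L (b (v.π x))) (b (v.π x)) := eq_mv hn ht (hb _).symm
    have hx2 : f l i x ≠ 0 := hx
    have h3 := hfx l i (v.π x) (v.L x - v.L (b (v.π x)))
    rw [← hx1] at h3
    rw [h3] at hx2
    by_cases h4 : v.L x - v.L (b (v.π x)) < 0
    · rw [if_pos h4] at hx2
      exact absurd rfl hx2
    · rw [if_neg h4] at hx2
      rw [Set.mem_iUnion₂]
      refine ⟨v.π x, ?_, (v.L x - v.L (b (v.π x))).natAbs, ?_, ?_⟩
      · by_contra hcon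
        have h5 : a' l (v.π x) i = 0 := dif_neg hcon
        rw [h5, Polynomial.coeff_zero] at hx2
        exact hx2 rfl
      · exact Polynomial.mem_support_iff.2 hx2
      · change mv hn ((v.L x - v.L (b (v.π x))).natAbs : ℤ) (b (v.π x)) = x
        rw [Int.natAbs_of_nonneg (not_lt.1 h4), ← hx1]
  refine ⟨k, y, fun l i => ⟨f l i, hff l i⟩, hy, fun i => ?_⟩
  have he : ∀ l c, ee hn ht (inc hn ht ⟨f l i, hff l i⟩) (b c) = P2L (a' l c i) := by
    intro l c
    ext m
    rw [ee_coeff, P2L_coeff, incQ_apply]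
    change ((f l i (mv hn m (b c)) : ℤ) : ℚ) = _
    rw [hfx]
    split_ifs
    · exact Int.cast_zero
    · rfl
  apply Subtype.ext
  refine fq_ext fun x => ?_
  have hx1 : x = mv hn (v.L x - v.L (b (v.π x))) (b (v.π x)) := eq_mv hn ht (hb _).symm
  rw [hx1]
  have h1 := congrArg (fun s => HahnSeries.coeff s (v.L x - v.L (b (v.π x)))) (ha' (v.π x) i)
  simp only [ee_coeff, HahnSeries.coeff_sum] at h1
  rw [h1]
  change _ = evQ hn ht (mv hn (v.L x - v.L (b (v.π x))) (b (v.π x)))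
    (∑ l, st hn ht (y l) (inc hn ht ⟨f l i, hff l i⟩))
  rw [map_sum]
  refine Finset.sum_congr rfl fun l _ => ?_
  change _ = (st hn ht (y l) (inc hn ht ⟨f l i, hff l i⟩) : FQ N) (mv hn _ (b (v.π x)))
  rw [st_apply, he, mul_comm]

/-- the degree one part is exact -/
theorem exact_MQ {n : ℕ} {e0 e1 e2 d0 d1 : MR G n} (hL : Low e0 e1 e2 d0 d1)
    (hF : AllDer (G := G) (famF N).sub) (φ : Fin n → MQ hn ht) (h1 : col e1 φ = φ)
    (h2 : col d1 φ = 0) : ∃ θ : Fin n → MQ hn ht, col d0 θ = φ := by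
  obtain ⟨k, y, φ', hy, hφ⟩ := exists_decomp hn ht φ
  let T : Fin k → (famF N).sub →ₗ[RR G] MQ hn ht := fun l => (st hn ht (y l)).comp (inc hn ht)
  have hφT : φ = fun i => ∑ l, T l (φ' l i) := funext hφ
  have hcol : ∀ (D : MR G n) i, col D φ i = ∑ l, T l (col D (φ' l) i) := by
    intro D i
    rw [hφT, col_sum]
    exact Finset.sum_congr rfl fun l _ => (col_lin (T l) D (φ' l) i).symm
  have h3 : ∀ l, col e1 (φ' l) = φ' l := by
    intro l
    funext i
    rw [← sub_eq_zero]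
    refine indep hn ht y hy (fun l => col e1 (φ' l) i - φ' l i) ?_ l
    have h4 : ∀ l, st hn ht (y l) (inc hn ht (col e1 (φ' l) i - φ' l i)) =
        T l (col e1 (φ' l) i) - T l (φ' l i) := fun l => map_sub (T l) _ _
    rw [Finset.sum_congr rfl fun l _ => h4 l, Finset.sum_sub_distrib, ← hcol, h1, sub_eq_zero]
    exact hφ i
  have h4 : ∀ l, col d1 (φ' l) = 0 := by
    intro l
    funext i
    refine indep hn ht y hy (fun l => col d1 (φ' l) i) ?_ l
    refine Eq.trans (hcol d1 i).symm ?_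
    rw [h2]
    rfl
  choose θ hθ using fun l => exact_of_allDer hL hF (φ' l) (h3 l) (h4 l)
  refine ⟨fun i => ∑ l, T l (θ l i), ?_⟩
  funext i
  rw [col_sum, hφ i]
  refine Finset.sum_congr rfl fun l _ => ?_
  rw [← col_lin, hθ]
  rfl

theorem t_RAY : S_RAY := by
  intro G _ n e0 e1 e2 d0 d1 hL N t hn ht hF δ hδ
  let v := mkLv hn (le_refl N) ht
  let j : v.famP.sub →ₗ[RR G] MQ hn ht := incQ v.famP v.famP fun _ h => h
  have hj : Function.Injective j := by
    intro f f' h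
    apply Subtype.ext
    refine fn_ext fun x => ?_
    have h1 := congrArg (fun f : MQ hn ht => (f : FQ N) x) h
    have h2 : (((f : Fn N) x : ℤ) : ℚ) = (((f' : Fn N) x : ℤ) : ℚ) := h1
    exact_mod_cast h2
  obtain ⟨φ, h1, h2, h3⟩ := exists_column hL (fun g => j (δ g)) (fun g h => by
    rw [hδ, map_add, map_smul])
  obtain ⟨μ, hμ⟩ := h3 (exact_MQ hn ht hL hF φ h1 h2)
  -- a zero of `μ`
  obtain ⟨x0, hx0⟩ : ∃ x0 : G ⧸ N, (μ : FQ N) x0 = 0 := by
    obtain ⟨-, B, hB⟩ := μ.2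
    obtain ⟨b, hb⟩ := exists_base (N := N) (t := t) hn ht ((1 : G) : G ⧸ (N ⊔ Subgroup.zpowers t))
    refine ⟨mv hn (B - v.L b - 1) b, ?_⟩
    by_contra hcon
    have h4 := hB _ hcon
    rw [L_mv] at h4
    have h5 : B ≤ v.L b + (B - v.L b - 1) := h4
    linarith
  have hint : ∀ x, ∃ z : ℤ, (z : ℚ) = (μ : FQ N) x := by
    intro x
    obtain ⟨g, hg⟩ := MulAction.exists_smul_eq G x0 x
    have h4 := congrArg (fun f : MQ hn ht => (f : FQ N) x0) (hμ g⁻¹)
    have h5 : (((δ g⁻¹ : Fn N) x0 : ℤ) : ℚ) = (gof g⁻¹ • (μ : FQ N)) x0 - (μ : FQ N) x0 := h4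
    rw [gofQ_apply, inv_inv, hg, hx0, sub_zero] at h5
    exact ⟨_, h5⟩
  choose z hz using hint
  have hzQ : toQ (A := N) z = (μ : FQ N) := fq_ext hz
  have hzm : (show Fn N from z) ∈ v.famP.sub := by
    change v.famP.mem (supp (show Fn N from z))
    rw [← suppQ_toQ]
    have h4 : suppQ (toQ (A := N) z) = suppQ (μ : FQ N) := by rw [hzQ]
    have h5 : v.famP.mem (suppQ (μ : FQ N)) := μ.2
    rw [← h4] at h5
    exact h5
  refine ⟨⟨z, hzm⟩, fun g => hj ?_⟩
  have h4 : j ⟨z, hzm⟩ = μ := Subtype.ext hzQ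
  rw [map_sub, map_smul, h4]
  exact hμ g

end

end Pool.Agent.J4H28.PH
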