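import Pool.Agent.J4H59.PH.Jobs

/-!
# Rational functions on the cosets with support in finitely many rays, as Laurent series
-/

set_option autoImplicit false
set_option linter.unusedSectionVars false

open scoped Classical Matrix

namespace Pool.Agent.J4H28.PH

open Pool.Agent.Helper386.PD3 Pool.Agent.J4H59.PD Pool.Agent.J4H59.PE Pool.Agent.J4H59.PH

noncomputable section

variable {G : Type} [Group G]

/-- additive maps which commute with the group are linear over the group ring -/
def linOf {M M' : Type} [AddCommGroup M] [Module (RR G) M] [AddCommGroup M'] [Module (RR G) M']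
    (F : M → M') (hadd : ∀ x y, F (x + y) = F x + F y)
    (hg : ∀ (g : G) x, F (gof g • x) = gof g • F x) : M →ₗ[RR G] M' where
  toFun := F
  map_add' := hadd
  map_smul' r x := by
    have h0 : F 0 = 0 := by
      have := hadd 0 0
      rw [add_zero] at this
      exact left_eq_add.1 this
    have hneg : ∀ x, F (-x) = -F x := by
      intro x
      rw [eq_neg_iff_add_eq_zero, ← hadd, neg_add_cancel, h0]
    change F (r • x) = r • F x
    induction r using rr_ind with
    | h1 g => exact hg g x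
    | h2 a b ha hb => rw [add_smul, hadd, ha, hb, add_smul]
    | h3 a ha => rw [neg_smul, hneg, ha, neg_smul]

/-- rational functions on the cosets of a subgroup -/
def FQ (A : Subgroup G) : Type := (G ⧸ A) → ℚ

instance (A : Subgroup G) : AddCommGroup (FQ A) := inferInstanceAs (AddCommGroup ((G ⧸ A) → ℚ))

/-- translation of functions -/
def trQ (A : Subgroup G) : G →* AddMonoid.End (FQ A) where
  toFun g := { toFun := fun f x => f (g⁻¹ • x), map_zero' := rfl, map_add' := fun _ _ => rfl }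
  map_one' := by
    refine AddMonoidHom.ext fun f => funext fun x => ?_
    change f ((1 : G)⁻¹ • x) = f x
    rw [inv_one, one_smul]
  map_mul' g h := by
    refine AddMonoidHom.ext fun f => funext fun x => ?_
    change f ((g * h)⁻¹ • x) = f (h⁻¹ • g⁻¹ • x)
    rw [mul_inv_rev, mul_smul]

instance (A : Subgroup G) : Module (RR G) (FQ A) := Module.compHom (FQ A) (liftR (trQ A))

variable {A : Subgroup G}

theorem gofQ_apply (g : G) (f : FQ A) (x : G ⧸ A) : (gof g • f) x = f (g⁻¹ • x) := by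
  change ((liftR (trQ A) (gof g)) f) x = _
  rw [liftR_of]
  rfl

theorem fq_ext {f f' : FQ A} (h : ∀ x, f x = f' x) : f = f' := funext h

theorem addQ_apply (f f' : FQ A) (x : G ⧸ A) : (f + f') x = f x + f' x := rfl
theorem subQ_apply (f f' : FQ A) (x : G ⧸ A) : (f - f') x = f x - f' x := rfl
theorem negQ_apply (f : FQ A) (x : G ⧸ A) : (-f) x = -f x := rfl
theorem zeroQ_apply (x : G ⧸ A) : (0 : FQ A) x = 0 := rfl

/-- the support -/
def suppQ (f : FQ A) : Set (G ⧸ A) := {x | f x ≠ 0}

theorem mem_suppQ (f : FQ A) (x : G ⧸ A) : x ∈ suppQ f ↔ f x ≠ 0 := Iff.rfl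

/-- the rational functions with support in the family -/
def subQ (Φ : Fam A) : Submodule (RR G) (FQ A) where
  carrier := {f | Φ.mem (suppQ f)}
  add_mem' {f f'} hf hf' := by
    refine Φ.mono ?_ (Φ.union hf hf')
    intro x hx
    by_contra hcon
    simp only [Set.mem_union, mem_suppQ, not_or, not_not] at hcon
    apply hx
    rw [addQ_apply, hcon.1, hcon.2, add_zero]
  zero_mem' := Φ.mono (fun x hx => hx rfl) Φ.empty
  smul_mem' r f hf := by
    have hadd : ∀ f f' : FQ A, Φ.mem (suppQ f) → Φ.mem (suppQ f') → Φ.mem (suppQ (f + f')) := by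
      intro f f' hf hf'
      refine Φ.mono ?_ (Φ.union hf hf')
      intro x hx
      by_contra hcon
      simp only [Set.mem_union, mem_suppQ, not_or, not_not] at hcon
      apply hx
      rw [addQ_apply, hcon.1, hcon.2, add_zero]
    change Φ.mem (suppQ (r • f))
    induction r using rr_ind with
    | h1 g =>
      refine Φ.mono ?_ (Φ.smul g⁻¹ hf)
      intro x hx
      rw [mem_suppQ, gofQ_apply] at hx
      exact hx
    | h2 a b ha hb =>
      rw [add_smul]
      exact hadd _ _ ha hb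
    | h3 a ha =>
      rw [neg_smul]
      refine Φ.mono ?_ ha
      intro x hx hx'
      apply hx
      rw [negQ_apply, hx', neg_zero]

/-- an integral function as a rational function -/
def toQ (f : Fn A) : FQ A := fun x => ((f x : ℤ) : ℚ)

theorem toQ_apply (f : Fn A) (x : G ⧸ A) : toQ f x = ((f x : ℤ) : ℚ) := rfl

theorem suppQ_toQ (f : Fn A) : suppQ (toQ f) = supp f := by
  ext x
  rw [mem_suppQ, toQ_apply, mem_supp, Ne, Int.cast_eq_zero]

/-- integral functions as rational functions -/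
def incQ (Φ Ψ : Fam A) (h : ∀ s, Φ.mem s → Ψ.mem s) : Φ.sub →ₗ[RR G] subQ Ψ :=
  linOf (fun f => ⟨toQ (f : Fn A), by
      change Ψ.mem (suppQ (toQ (f : Fn A)))
      rw [suppQ_toQ]
      exact h _ f.2⟩)
    (fun f f' => Subtype.ext (fq_ext fun x => by
      change ((((f : Fn A) x + (f' : Fn A) x : ℤ)) : ℚ) = ((f : Fn A) x : ℚ) + ((f' : Fn A) x : ℚ)
      rw [Int.cast_add]))
    (fun g f => Subtype.ext (fq_ext fun x => by
      change toQ (gof g • (f : Fn A)) x = (gof g • toQ (f : Fn A)) x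
      rw [gofQ_apply, toQ_apply, toQ_apply, gof_apply]))

theorem incQ_apply (Φ Ψ : Fam A) (h : ∀ s, Φ.mem s → Ψ.mem s) (f : Φ.sub) (x : G ⧸ A) :
    (incQ Φ Ψ h f : FQ A) x = (((f : Fn A) x : ℤ) : ℚ) := rfl

section ray

variable {N : Subgroup G} {t : G}

/-- right multiplication by a power of `t` -/
def mv (hn : t ∈ Subgroup.normalizer (N : Set G)) (m : ℤ) : G ⧸ N → G ⧸ N :=
  Quotient.map' (fun g => g * t ^ m) (by
    intro a b hab
    rw [QuotientGroup.leftRel_apply] at hab ⊢
    have h1 : (a * t ^ m)⁻¹ * (b * t ^ m) = t ^ (-m) * (a⁻¹ * b) * (t ^ (-m))⁻¹ := by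
      rw [zpow_neg]
      group
    rw [h1]
    exact zpow_conj hn (-m) hab)

variable (hn : t ∈ Subgroup.normalizer (N : Set G))

theorem mv_mk (m : ℤ) (g : G) : mv hn m (g : G ⧸ N) = ((g * t ^ m : G) : G ⧸ N) := rfl

theorem mv_smul (m : ℤ) (g : G) (x : G ⧸ N) : mv hn m (g • x) = g • mv hn m x := by
  induction x using QuotientGroup.induction_on with
  | H a =>
    change ((g * a * t ^ m : G) : G ⧸ N) = ((g * (a * t ^ m) : G) : G ⧸ N)
    rw [mul_assoc]

theorem mv_zero (x : G ⧸ N) : mv hn 0 x = x := by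
  induction x using QuotientGroup.induction_on with
  | H a => rw [mv_mk, zpow_zero, mul_one]

theorem mv_mv (m k : ℤ) (x : G ⧸ N) : mv hn m (mv hn k x) = mv hn (m + k) x := by
  induction x using QuotientGroup.induction_on with
  | H a => rw [mv_mk, mv_mk, mv_mk, mul_assoc, ← zpow_add, add_comm]

variable (ht : ∀ k : ℤ, k ≠ 0 → t ^ k ∉ N)

theorem pi_mv (m : ℤ) (x : G ⧸ N) :
    (mkLv hn (le_refl N) ht).π (mv hn m x) = (mkLv hn (le_refl N) ht).π x := by
  induction x using QuotientGroup.induction_on with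
  | H a =>
    change pj N t N ((a * t ^ m : G) : G ⧸ N) = pj N t N (a : G ⧸ N)
    rw [pj_mk le_rfl, pj_mk le_rfl]
    exact mk_mul_sup a ((le_sup_right : Subgroup.zpowers t ≤ N ⊔ Subgroup.zpowers t)
      (Subgroup.zpow_mem_zpowers t m))

theorem L_mv (m : ℤ) (x : G ⧸ N) :
    (mkLv hn (le_refl N) ht).L (mv hn m x) = (mkLv hn (le_refl N) ht).L x + m := by
  induction x using QuotientGroup.induction_on with
  | H a =>
    exact lv_mul hn le_rfl ht a (IsLev.zpow m)
      ((le_sup_right : Subgroup.zpowers t ≤ N ⊔ Subgroup.zpowers t)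
        (Subgroup.zpow_mem_zpowers t m))

theorem inj_pi_L (y y' : G ⧸ N)
    (h1 : (mkLv hn (le_refl N) ht).π y = (mkLv hn (le_refl N) ht).π y')
    (h2 : (mkLv hn (le_refl N) ht).L y = (mkLv hn (le_refl N) ht).L y') : y = y' := by
  obtain ⟨g, rfl⟩ := QuotientGroup.mk_surjective y
  obtain ⟨g', rfl⟩ := QuotientGroup.mk_surjective y'
  have h1 : pj N t N (g : G ⧸ N) = pj N t N (g' : G ⧸ N) := h1
  rw [pj_mk le_rfl, pj_mk le_rfl] at h1
  have h2 : lv hn N (g : G ⧸ N) = lv hn N (g' : G ⧸ N) := h2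
  have h3 := lv_spec (t := t) hn (le_refl N) g
  have h4 := lv_spec (t := t) hn (le_refl N) g'
  rw [← h1, ← h2] at h4
  have h5 := (h3.inv hn).mul hn h4
  rw [neg_add_cancel] at h5
  unfold IsLev at h5
  rw [neg_zero, zpow_zero, mul_one] at h5
  rw [QuotientGroup.eq]
  have h6 : ((rp (g : G ⧸ (N ⊔ Subgroup.zpowers t)))⁻¹ * g)⁻¹ *
      ((rp (g : G ⧸ (N ⊔ Subgroup.zpowers t)))⁻¹ * g') = g⁻¹ * g' := by group
  rwa [h6] at h5

/-- a point is a translate of any point over the same class -/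
theorem eq_mv {x b : G ⧸ N}
    (h : (mkLv hn (le_refl N) ht).π x = (mkLv hn (le_refl N) ht).π b) :
    x = mv hn ((mkLv hn (le_refl N) ht).L x - (mkLv hn (le_refl N) ht).L b) b := by
  apply inj_pi_L hn ht
  · rw [pi_mv, h]
  · rw [L_mv]
    ring

/-- a base point over a class -/
theorem exists_base (c : G ⧸ (N ⊔ Subgroup.zpowers t)) :
    ∃ b : G ⧸ N, (mkLv hn (le_refl N) ht).π b = c := by
  refine ⟨((rp c : G) : G ⧸ N), ?_⟩
  change pj N t N ((rp c : G) : G ⧸ N) = c
  rw [pj_mk le_rfl]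
  exact mk_rp c

/-- finite supports are in the family -/
theorem famP_of_finite (s : Set (G ⧸ N)) (h : (famF N).mem s) :
    (mkLv hn (le_refl N) ht).famP.mem s := by
  have h : s.Finite := h
  refine ⟨⟨h.image _, fun c k => h.subset fun x hx => hx.1⟩, ?_⟩
  obtain ⟨B, hB⟩ := (h.image (mkLv hn (le_refl N) ht).L).bddBelow
  exact ⟨B, fun x hx => hB ⟨x, hx, rfl⟩⟩

/-- a criterion -/
theorem famP_of (s : Set (G ⧸ N)) (h : ((mkLv hn (le_refl N) ht).π '' s).Finite) (B : ℤ)
    (hB : ∀ x ∈ s, B ≤ (mkLv hn (le_refl N) ht).L x) : (mkLv hn (le_refl N) ht).famP.mem s := by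
  refine ⟨⟨h, fun c k => ?_⟩, B, hB⟩
  refine Set.Subsingleton.finite ?_
  rintro x ⟨-, hx1, hx2⟩ y ⟨-, hy1, hy2⟩
  exact inj_pi_L hn ht x y (hx1.trans hy1.symm) (hx2.trans hy2.symm)

/-- the rational module -/
abbrev MQ : Submodule (RR G) (FQ N) := subQ (mkLv hn (le_refl N) ht).famP

theorem bdd (f : MQ hn ht) (x : G ⧸ N) :
    BddBelow (Function.support fun m : ℤ => (f : FQ N) (mv hn m x)) := by
  obtain ⟨-, B, hB⟩ := f.2
  refine ⟨B - (mkLv hn (le_refl N) ht).L x, ?_⟩
  intro m hm
  have h1 := hB (mv hn m x) hm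
  rw [L_mv] at h1
  linarith

/-- the Laurent series of a function at a point -/
def ee (f : MQ hn ht) (x : G ⧸ N) : LaurentSeries ℚ :=
  HahnSeries.ofSuppBddBelow (fun m : ℤ => (f : FQ N) (mv hn m x)) (bdd hn ht f x)

theorem ee_coeff (f : MQ hn ht) (x : G ⧸ N) (m : ℤ) :
    (ee hn ht f x).coeff m = (f : FQ N) (mv hn m x) := rfl

theorem ee_add (f f' : MQ hn ht) (x : G ⧸ N) :
    ee hn ht (f + f') x = ee hn ht f x + ee hn ht f' x := by
  ext m
  rw [HahnSeries.coeff_add]
  rfl

theorem ee_gof (g : G) (f : MQ hn ht) (x : G ⧸ N) :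
    ee hn ht (gof g • f) x = ee hn ht f (g⁻¹ • x) := by
  ext m
  rw [ee_coeff, ee_coeff, mv_smul]
  exact gofQ_apply g (f : FQ N) _

theorem ee_mv (f : MQ hn ht) (m : ℤ) (x : G ⧸ N) :
    ee hn ht f (mv hn m x) = HahnSeries.single (-m) (1 : ℚ) * ee hn ht f x := by
  ext j
  rw [ee_coeff, mv_mv, HahnSeries.coeff_single_mul, one_mul, ee_coeff, sub_neg_eq_add]

theorem ee_zero (f : MQ hn ht) (x : G ⧸ N) (h : ∀ m : ℤ, (f : FQ N) (mv hn m x) = 0) :
    ee hn ht f x = 0 := by
  ext j
  rw [ee_coeff, h]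
  rfl

theorem coeff_mul_eq_zero {y z : LaurentSeries ℚ} {a b m : ℤ} (ha : ∀ i < a, y.coeff i = 0)
    (hb : ∀ i < b, z.coeff i = 0) (hm : m < a + b) : (y * z).coeff m = 0 := by
  rw [HahnSeries.coeff_mul]
  refine Finset.sum_eq_zero fun ij hij => ?_
  rw [Finset.mem_antidiagonal] at hij
  obtain ⟨h1, h2, h3⟩ := hij
  rw [HahnSeries.mem_support] at h1 h2
  have h4 : a ≤ ij.1 := by
    by_contra hcon
    exact h1 (ha _ (not_le.1 hcon))
  have h5 : b ≤ ij.2 := by
    by_contra hcon
    exact h2 (hb _ (not_le.1 hcon))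
  omega

/-- multiplication by a Laurent series -/
def st (y : LaurentSeries ℚ) : MQ hn ht →ₗ[RR G] MQ hn ht :=
  linOf (fun f => ⟨fun x => (y * ee hn ht f x).coeff 0, by
      obtain ⟨h1, B, hB⟩ := f.2
      obtain ⟨C, hC⟩ : ∃ C : ℤ, ∀ i < C, y.coeff i = 0 := by
        refine ⟨y.order, fun i hi => HahnSeries.coeff_eq_zero_of_lt_order hi⟩
      refine famP_of hn ht _ (h1.1.subset ?_) (B + C) ?_
      · rintro _ ⟨x, hx, rfl⟩
        by_contra hcon
        apply hx
        change (y * ee hn ht f x).coeff 0 = 0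
        rw [ee_zero, mul_zero]
        · rfl
        · intro m
          by_contra hm
          exact hcon ⟨mv hn m x, hm, pi_mv hn ht m x⟩
      · intro x hx
        by_contra hcon
        apply hx
        change (y * ee hn ht f x).coeff 0 = 0
        refine coeff_mul_eq_zero (a := C) (b := B - (mkLv hn (le_refl N) ht).L x) hC ?_ ?_
        · intro i hi
          rw [ee_coeff]
          by_contra h2
          have h3 := hB _ h2
          rw [L_mv] at h3
          linarith
        · linarith⟩)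
    (fun f f' => Subtype.ext (fq_ext fun x => by
      change (y * ee hn ht (f + f') x).coeff 0 = (y * ee hn ht f x).coeff 0 +
        (y * ee hn ht f' x).coeff 0
      rw [ee_add, mul_add, HahnSeries.coeff_add]))
    (fun g f => Subtype.ext (fq_ext fun x => by
      refine Eq.trans ?_ (gofQ_apply g _ x).symm
      change (y * ee hn ht (gof g • f) x).coeff 0 = (y * ee hn ht f (g⁻¹ • x)).coeff 0
      rw [ee_gof]))

theorem st_apply (y : LaurentSeries ℚ) (f : MQ hn ht) (m : ℤ) (x : G ⧸ N) :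
    (st hn ht y f : FQ N) (mv hn m x) = (y * ee hn ht f x).coeff m := by
  change (y * ee hn ht f (mv hn m x)).coeff 0 = _
  rw [ee_mv, mul_left_comm, HahnSeries.coeff_single_mul, one_mul, zero_sub, neg_neg]

end ray

end

end Pool.Agent.J4H28.PH
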